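import Mathlib
import Pool.Agent.W964.Wd.Nw.Main

/-!
# A generator with short seeds against alternating ideal parallel machines

Ideal parallel random access machines: priority concurrent writing, concurrent searching of lists of
cells, arbitrary local computations (arbitrary instruction set), unbounded words, unbounded memory,
different programs for different processors, another machine for every size of the input.
Definitions: `Machine`, `Machine.answer`, `Machine.Lists` are in `Pool.Agent.W964.Wd.Machine`;
`Guess`, `Choices`, `quant`, `total`, `Guess.altAnswer` in `Pool.Agent.W964.Wd.Alt.Defs`; `polyVal`,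
`nwBit`, `prob` in `Pool.Agent.W964.Wd.Nw.Defs`; `lg`, `nwSize` in `Pool.Agent.W964.Wd.Nw.Main`.
The theorem `nw_alt` of the starting library `Pool.Agent.W964.Wd.Nw`, which no result file stated
before, is used.
-/

set_option autoImplicit false

open Finset Filter Pool.Agent.W964.Wd

namespace Pool.Agent.Results.MP_ca1109_lc.AlternatingParallelMachines

/-- The smallest prime number which is at least `nwSize (T m) m`, which is
`((t l) ^ 2 l) ^ (10 t)` where `t = T m` and `l` is the number of binary digits of `m`. -/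
noncomputable def ell (T : ℕ → ℕ) (m : ℕ) : ℕ :=
  sInf {p : ℕ | p.Prime ∧ nwSize (T m) m ≤ p}

lemma ell_mem (T : ℕ → ℕ) (m : ℕ) : (ell T m).Prime ∧ nwSize (T m) m ≤ ell T m := by
  have h : {p : ℕ | p.Prime ∧ nwSize (T m) m ≤ p}.Nonempty := by
    obtain ⟨p, h1, h2⟩ := Nat.exists_infinite_primes (nwSize (T m) m)
    exact ⟨p, h2, h1⟩
  exact Nat.sInf_mem h

lemma ell_le (T : ℕ → ℕ) (m : ℕ) (hT : 1 ≤ T m) : ell T m ≤ 2 * nwSize (T m) m := by
  obtain ⟨p, h1, h2, h3⟩ := Nat.exists_prime_lt_and_le_two_mul (nwSize (T m) m) (by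
      have := nwSize_pos hT m
      omega)
  exact (Nat.sInf_le (⟨h1, h2.le⟩ : p ∈ {p : ℕ | p.Prime ∧ nwSize (T m) m ≤ p})).trans h3

/-- **A generator with short seeds against alternating parallel machines, unconditionally.** Let
`T m ≥ 1` for all `m`. The seed `s` consists of `ℓ ^ 2` bits `s (a, b)`, for `a`, `b` in the field
with `ℓ = ell T m` elements; the `j`-th of the `m` bits of the output is the sum modulo two of the
bits `s (a, b)` of the seed for the points `(a, b)` on the graph of the polynomial whose coefficients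
are the digits of `j` in base `ℓ` (Nisan and Wigderson).

1. For every `K`, if `m` is large: every alternating parallel machine `G` with at most `m ^ K`
processors, lists of length at most `m ^ K`, at most `T m` (and at most `m`) quantifiers, at most
`m ^ K` guesses altogether and `T m` steps distinguishes the output of the generator from `m`
independent random bits with advantage at most `m ^ (-K)`.

2. `ℓ` is at most twice `nwSize (T m) m = ((t l) ^ 2 l) ^ (10 t)`, where `t = T m` and `l` is the
number of binary digits of `m`.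

3. If `T m = o (log m / log log m)`, then the number of bits of the seed is `m ^ (o (1))`. -/
theorem result (T : ℕ → ℕ) (hT : ∀ m, 1 ≤ T m) :
    (∀ K : ℕ, ∃ m₀ : ℕ, ∀ m, m₀ ≤ m → ∀ L : List (Bool × ℕ), L.length ≤ T m → L.length ≤ m →
      (∀ qb ∈ L, 1 ≤ qb.2) →
      ∀ (P : ℕ) (G : Guess Bool (Fin m) P (Choices L)), P ≤ m ^ K → total L ≤ m ^ K →
        G.base.Lists (m ^ K) →
        |prob (fun s : Fin (ell T m) × Fin (ell T m) → Bool =>
            G.altAnswer (T m) (fun j : Fin m => nwBit (ell T m) (lg m) s j) = true) -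
          prob (fun x : Fin m → Bool => G.altAnswer (T m) x = true)| ≤ 1 / (m : ℝ) ^ K) ∧
    (∀ m, ell T m ≤ 2 * nwSize (T m) m) ∧
    ((fun m : ℕ => (T m : ℝ) * Real.log (Real.log m)) =o[atTop]
        (fun m : ℕ => Real.log (m : ℝ)) →
      ∀ δ : ℝ, 0 < δ → ∀ᶠ m : ℕ in atTop, ((ell T m ^ 2 : ℕ) : ℝ) ≤ (m : ℝ) ^ δ) := by
  refine ⟨?_, ?_, ?_⟩
  · intro K
    obtain ⟨C, hC, H⟩ := nw_alt K
    refine ⟨2 ^ (9 * C), ?_⟩
    intro m hm L hL1 hL2 hL P G hP htot hlist
    have hm1 : 1 ≤ m := le_trans Nat.one_le_two_pow hm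
    have hlg : 9 * C ≤ lg m := by
      have h1 : 9 * C ≤ Nat.log 2 m := Nat.le_log_of_pow_le (by norm_num) hm
      unfold lg
      omega
    have hmK : m ^ K ≤ 2 ^ (K * lg m) := by
      rw [mul_comm, pow_mul]
      exact Nat.pow_le_pow_left (le_two_pow_lg m) K
    have hT1 := hT m
    obtain ⟨T', hT'⟩ : ∃ T', T' = T m + 2 * L.length := ⟨_, rfl⟩
    have hT'3 : T' ≤ 3 * T m := by omega
    have hsize : (C * (T' * lg m) ^ 2) ^ (3 * T' + 1) ≤ nwSize (T m) m := by
      unfold nwSize
      have h1 : C * (T' * lg m) ^ 2 ≤ (T m * lg m) ^ 2 * lg m := by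
        calc C * (T' * lg m) ^ 2 ≤ C * (3 * T m * lg m) ^ 2 :=
              Nat.mul_le_mul_left _ (Nat.pow_le_pow_left (Nat.mul_le_mul_right _ hT'3) 2)
          _ = (T m * lg m) ^ 2 * (9 * C) := by ring
          _ ≤ (T m * lg m) ^ 2 * lg m := Nat.mul_le_mul_left _ hlg
      have h2 : 1 ≤ (T m * lg m) ^ 2 * lg m := by
        have := lg_pos m
        have h3 : 0 < (T m * lg m) ^ 2 * lg m := by positivity
        exact h3
      calc (C * (T' * lg m) ^ 2) ^ (3 * T' + 1) ≤ ((T m * lg m) ^ 2 * lg m) ^ (3 * T' + 1) :=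
            Nat.pow_le_pow_left h1 _
        _ ≤ ((T m * lg m) ^ 2 * lg m) ^ (10 * T m) := Nat.pow_le_pow_right h2 (by omega)
    have h1 := H (lg m) m (T m) (ell T m) (lg m) L (lg_pos m) (le_two_pow_lg m) (hT m) hL
      (hL2.trans (le_two_pow_lg m)) (ell_mem T m).1 (by
        rw [← hT']
        exact hsize.trans (ell_mem T m).2) (by
        refine (le_two_pow_lg m).trans ?_
        exact Nat.pow_le_pow_left (ell_mem T m).1.two_le _) le_rfl P G (hP.trans hmK)
      (htot.trans hmK) (fun q => (hlist q).trans hmK)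
    refine h1.trans ?_
    have hmR : (0 : ℝ) < (m : ℝ) ^ K := by
      have : (0 : ℝ) < m := by exact_mod_cast hm1
      positivity
    apply one_div_le_one_div_of_le hmR
    exact_mod_cast hmK
  · exact fun m => ell_le T m (hT m)
  · intro hTo δ hδ
    filter_upwards [nw_small T hT hTo δ hδ] with m h1
    exact h1 (ell T m) (ell_mem T m).1.one_le (ell_le T m (hT m))

end Pool.Agent.Results.MP_ca1109_lc.AlternatingParallelMachines
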