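import Pool.Agent.TH707.EC.FinalG

/-!
# How many strings of a random oracle have to be changed to destroy all logarithmic-seed generators?

Relative to almost every oracle `O` there is a logarithmic-seed generator against circuits (with
gates for the oracle). An adversary who knows `O` changes, for all large `n`, at most `g n` of the
strings of length at most `n`; the result is the oracle `A`.

* If `g` is polynomially bounded, then for almost every `O` there is still a logarithmic-seed
  generator relative to all these `A`, however the changes depend on `O`. Otherwise every oracle `O`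
  can be changed such that there is none relative to `A`. (Polynomially bounded means here that for
  some `k` and all large `n` there is `m ≥ n` with `g m ≤ n ^ k`; if `g` is nondecreasing, this says
  that `g n ≤ n ^ k` for all large `n`.)
* The same for generators which only have to work for infinitely many output lengths, where the
  condition is that for some `k`, `g n ≤ n ^ k` for infinitely many `n`.
-/

set_option autoImplicit false

namespace Pool.Agent.Results.MP_ca1109_lc.ChangedStrings

open Pool.Agent.NPC Pool.Agent.H620R2.Gauge Pool.Agent.TH707.EC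
open Pool.Agent.W900.CH (Close)
open Pool.Agent.H628R3.RO (randomOracle)
open MeasureTheory Filter

theorem result (g : ℕ → ℝ) :
    ((∃ k : ℕ, ∀ᶠ n : ℕ in atTop, ∃ m : ℕ, n ≤ m ∧ g m ≤ (n : ℝ) ^ k) →
      ∀ᵐ O ∂randomOracle, ∀ A : Oracle, Close g O A → HasGenerator A) ∧
    ((¬ ∃ k : ℕ, ∀ᶠ n : ℕ in atTop, ∃ m : ℕ, n ≤ m ∧ g m ≤ (n : ℝ) ^ k) →
      ∀ O : Oracle, ∃ A : Oracle, Close g O A ∧ ¬ HasGenerator A) ∧
    ((∃ k : ℕ, ∃ᶠ n : ℕ in atTop, g n ≤ (n : ℝ) ^ k) →
      ∀ᵐ O ∂randomOracle, ∀ A : Oracle, Close g O A → HasGeneratorIO A) ∧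
    ((¬ ∃ k : ℕ, ∃ᶠ n : ℕ in atTop, g n ≤ (n : ℝ) ^ k) →
      ∀ O : Oracle, ∃ A : Oracle, Close g O A ∧ ¬ HasGeneratorIO A) :=
  changedG g

end Pool.Agent.Results.MP_ca1109_lc.ChangedStrings
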