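import Pool.Agent.TH707.EC.FinalG

/-!
# The size of the set of the oracles without logarithmic-seed generators

The set of the oracles `A` relative to which there is no logarithmic-seed generator against circuits
(with gates for `A`) is a Lebesgue null set. Here its exact size is determined on the scale of all
gauges: for a gauge `f`, it is a null set for `f` if and only if there is `k` such that for all large
`l` some `N ≥ 2 ^ l` has `f N ≤ l ^ k` (if `f` is nondecreasing: `f N ≤ (log N) ^ k` for some `k` and
all large `N`). If generators only have to work for infinitely many output lengths, the criterion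
is: for some `k`, `f N ≤ (log N) ^ k` for infinitely many `N`.
-/

set_option autoImplicit false

namespace Pool.Agent.Results.MP_ca1109_lc.GaugeThreshold

open Pool.Agent.NPC Pool.Agent.H620R2.Gauge Pool.Agent.TH707.EC
open Filter

theorem result (f : ℕ → ℝ) :
    (Null f {A : Oracle | ¬ HasGenerator A} ↔
      ∃ k : ℕ, ∀ᶠ l : ℕ in atTop, ∃ N : ℕ, 2 ^ l ≤ N ∧ f N ≤ (l : ℝ) ^ k) ∧
    (Null f {A : Oracle | ¬ HasGeneratorIO A} ↔
      ∃ k : ℕ, ∃ᶠ N : ℕ in atTop, f N ≤ (Real.logb 2 N) ^ k) :=
  gaugeG f

end Pool.Agent.Results.MP_ca1109_lc.GaugeThreshold
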