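import Pool.Agent.TH706.GR.Gen

/-!
# A generator against machines with an unlimited stack which read the output `O(1)` times

Polynomial-size circuits are the same as non-uniform logarithmic space together with a stack
(pushdown store) of unlimited height (Cook's auxiliary pushdown automata).  In this model the number
of the queries of the input is a natural resource.  Here is an unconditional generator against all
such machines which read the output string `k` times on average over the bits (`k` any constant,
adaptively, in any order): the seed `x` of `n` bits is extended by `J` bits, `J ≤ n / (D S)`, and no
program with a stack, `2 ^ S` nodes and `k (n + J)` queries tells the `n + J` bits from random bits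
with an advantage of more than `2 ^ (- n / (D S))`.  So against polynomially many nodes the stretch is
`n / (D log n)` bits, against `2 ^ (n / D')` nodes it is a constant number of bits which grows with
`D'`.  Each new bit is the parity of the number of the edges which the seed induces in a fixed graph
on `n` vertices with at most `D (J + 1) n` edges.

*Proof.*  A canonical decomposition of the computations with a stack partitions the inputs into
few products of blocks (`Pool.Agent.TH706.CD`); hence the parity of more than `L` suitable quadratic
forms is nearly uncorrelated with one program.  Every new bit is the parity of `L + 1` forms of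
its own, so that the indicator of a value of the `J` bits, minus its expectation, is orthogonal to all
characters of at most `L` of the forms; the `J` bits are handled as constants in the program.
-/

set_option autoImplicit false

namespace Pool.Agent.Results.MP_ca1109_lc.LinearReadsStack

open Finset
open Pool.Agent.H554R2.Sem (Pt)
open Pool.Agent.W896.PD (PP)
open Pool.Agent.TH706.CD (OutIn)
open Pool.Agent.TH706.GR (edgePar)

open Classical in
/-- For every `k` there is `D` such that for all `n`, `J` with `D (J + 1) ≤ n` there are graphs
`E 0, …, E (J - 1)` on `n` vertices with at most `D (J + 1) n` edges such that for all `S` with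
`n ≤ 2 ^ S` and `D S J ≤ n`, all `τ ≤ k (n + J)`, all deterministic programs `P` with an unlimited
stack and at most `2 ^ S` nodes on `n + J` variables and all `c`: the probabilities that `P` outputs
`c` after at most `τ` queries on `x, edgePar (E 0) x, …, edgePar (E (J - 1)) x` (`x` uniform in
`{0, 1} ^ n`) and on a uniform string of `n + J` bits differ by at most `2 ^ (- n / (D S))`. -/
theorem result (k : ℕ) : ∃ D : ℕ, 2 ≤ D ∧ ∀ n J : ℕ, D * (J + 1) ≤ n →
    ∃ E : Fin J → Finset (Fin n × Fin n), (∀ i, (E i).card ≤ D * (J + 1) * n) ∧
      ∀ S : ℕ, n ≤ 2 ^ S → D * S * J ≤ n → ∀ τ ≤ k * (n + J), ∀ P : PP (Fin (n + J)) Bool,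
        Fintype.card P.State ≤ 2 ^ S → ∀ c : Bool,
        |((univ.filter (fun x : Pt n =>
            OutIn P τ c (Fin.append x (fun i => edgePar (E i) x)))).card : ℝ) / 2 ^ n -
          ((univ.filter (fun z : Pt (n + J) => OutIn P τ c z)).card : ℝ) / 2 ^ (n + J)| ≤
        1 / 2 ^ (n / (D * S)) :=
  Pool.Agent.TH706.GR.generator k

end Pool.Agent.Results.MP_ca1109_lc.LinearReadsStack
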